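import Pool.Agent.NPX.Stmts

/-!
# Squad NPX, row MUP: the measures
-/

set_option autoImplicit false

open MeasureTheory Set Topology Pointwise

namespace Pool.Agent.NPX.H64

open Pool.Agent.LSG Pool.Agent.NPX

theorem mup : MupStmt := by
  classical
  intro K _ _ _ _ _ _ _ _
  letI : MetricSpace K := TopologicalSpace.metrizableSpaceMetric K
  haveI : SecondCountableTopology K := by infer_instance
  have hH : (mu K).IsHaarMeasure := by
    unfold mu
    infer_instance
  have hP : IsProbabilityMeasure (mu K) := by
    refine ⟨?_⟩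
    have h := Measure.haarMeasure_self (K₀ := (⊤ : TopologicalSpace.PositiveCompacts K))
    have e : ((⊤ : TopologicalSpace.PositiveCompacts K) : Set K) = Set.univ := rfl
    rw [e] at h
    exact h
  have hm : ∀ k : ℤ, Measurable fun x : K => x ^ k := fun k => (continuous_zpow k).measurable
  have hPk : ∀ k : ℤ, IsProbabilityMeasure (mk K k) := fun k =>
    Measure.isProbabilityMeasure_map (hm k).aemeasurable
  have hnul : ∀ n : ℤ, Inf K n → ∀ z : K, mu K {x | x ^ n = z} = 0 := by
    intro n hn z
    have htr : ∀ y : K, mu K {x | x ^ n = y ^ n} = mu K {x | x ^ n = 1} := by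
      intro y
      have e : {x : K | x ^ n = y ^ n} = (fun x => y⁻¹ * x) ⁻¹' {x | x ^ n = 1} := by
        ext x
        simp only [Set.mem_preimage, Set.mem_ofPred_eq, mul_zpow, inv_zpow]
        rw [inv_mul_eq_one]
        exact eq_comm
      rw [e]
      exact measure_preimage_mul (mu K) y⁻¹ _
    have h1 : mu K {x | x ^ n = 1} = 0 := by
      by_contra h
      have h2 : mk K n (Set.range fun x : K => x ^ n) = ⊤ := by
        refine Set.Infinite.meas_eq_top hn ⟨mu K {x | x ^ n = 1}, h, ?_⟩
        rintro _ ⟨y, rfl⟩
        have h3 : mk K n {y ^ n} = mu K {x | x ^ n = y ^ n} := by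
          unfold mk
          rw [Measure.map_apply (hm n) (measurableSet_singleton _)]
          rfl
        show mu K {x | x ^ n = 1} ≤ mk K n {y ^ n}
        rw [h3, htr y]
      haveI := hPk n
      exact measure_ne_top _ _ h2
    by_cases hz : ∃ y : K, y ^ n = z
    · obtain ⟨y, rfl⟩ := hz
      rw [htr y]
      exact h1
    · have e : {x : K | x ^ n = z} = ∅ := by
        ext x
        simp only [Set.mem_ofPred_eq, Set.mem_empty_iff_false, iff_false]
        exact fun h => hz ⟨x, h⟩
      rw [e, measure_empty]
  refine ⟨hP, hH, ?_, hPk, ?_, ?_, ?_⟩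
  · unfold mk
    have e : (fun x : K => x ^ (1 : ℤ)) = id := by
      funext x
      simp
    rw [e, Measure.map_id]
  · intro k j hkj z
    unfold mk
    have hms : MeasurableSet {y : K | y ^ j = z} := (hm j) (measurableSet_singleton z)
    rw [Measure.map_apply (hm k) hms]
    have e : (fun x : K => x ^ k) ⁻¹' {y : K | y ^ j = z} = {x | x ^ (k * j) = z} := by
      ext x
      simp only [Set.mem_preimage, Set.mem_ofPred_eq, zpow_mul]
    rw [e]
    exact hnul _ hkj z
  · intro k E hE hpos
    haveI := hPk k
    obtain ⟨C, hC, hC', hC''⟩ := hE.exists_lt_isCompact_of_ne_top (measure_ne_top (mk K k) E) hpos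
    exact ⟨C, hC, hC', hC''⟩
  · intro k
    have hms : MeasurableSet (Set.range fun x : K => x ^ k) :=
      (isCompact_range (continuous_zpow k)).isClosed.measurableSet
    refine ⟨hms, ?_⟩
    have e : (fun x : K => x ^ k) ⁻¹' (Set.range fun x : K => x ^ k)ᶜ = ∅ := by
      ext x
      simp
    unfold mk
    rw [Measure.map_apply (hm k) hms.compl, e, measure_empty]

end Pool.Agent.NPX.H64
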