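import Pool.Agent.NPX.Stmts

/-!
# Squad NPX, row MYN: a Cantor set on which countably many maps are finite-to-one
-/

set_option autoImplicit false

open MeasureTheory Set Topology Pointwise

namespace Pool.Agent.NPX.H64

open Pool.Agent.LSG Pool.Agent.NPX

section

variable {K : Type} [TopologicalSpace K] [CompactSpace K]
  [TopologicalSpace.MetrizableSpace K] [MeasurableSpace K] [BorelSpace K] {ν : Measure K}
  [IsFiniteMeasure ν]

theorem msp {F : Set K} {ψ : K → K} (hψ : Measurable ψ) (hpos : 0 < ν F)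
    (hn : ∀ y, ν (F ∩ ψ ⁻¹' {y}) = 0) :
    ∃ D : Set K, MeasurableSet D ∧ 0 < ν (F ∩ ψ ⁻¹' D) ∧ 0 < ν (F \ ψ ⁻¹' D) := by
  classical
  letI : MetricSpace K := TopologicalSpace.metrizableSpaceMetric K
  haveI : SecondCountableTopology K := by infer_instance
  by_contra hcon
  let B := TopologicalSpace.countableBasis K
  have hB : TopologicalSpace.IsTopologicalBasis B := TopologicalSpace.isBasis_countableBasis K
  have hBc : B.Countable := TopologicalSpace.countable_countableBasis K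
  let N : Set K → Set K := fun D => if ν (F ∩ ψ ⁻¹' D) = 0 then F ∩ ψ ⁻¹' D else F \ ψ ⁻¹' D
  have hN : ∀ D ∈ B, ν (N D) = 0 := by
    intro D hD
    by_cases h : ν (F ∩ ψ ⁻¹' D) = 0
    · simp only [N, if_pos h]
      exact h
    · simp only [N, if_neg h]
      by_contra h2
      exact hcon ⟨D, (hB.isOpen hD).measurableSet, pos_iff_ne_zero.2 h, pos_iff_ne_zero.2 h2⟩
  have hU : ν (⋃ D ∈ B, N D) = 0 := (measure_biUnion_null_iff hBc).2 hN
  have hne : (F \ ⋃ D ∈ B, N D).Nonempty := by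
    by_contra h
    rw [not_nonempty_iff_eq_empty, diff_eq_empty] at h
    exact hpos.ne' (measure_mono_null h hU)
  obtain ⟨x0, hx0, hx0'⟩ := hne
  refine hpos.ne' (measure_mono_null ?_ (measure_union_null hU (hn (ψ x0))))
  intro x hx
  by_cases hxN : x ∈ ⋃ D ∈ B, N D
  · exact Or.inl hxN
  right
  refine ⟨hx, ?_⟩
  by_contra hne2
  have hne3 : ψ x0 ∈ ({ψ x} : Set K)ᶜ := fun e => hne2 (by
    rw [mem_singleton_iff] at e
    show ψ x ∈ ({ψ x0} : Set K)
    rw [e, mem_singleton_iff])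
  obtain ⟨D, hDB, hD1, hD2⟩ := hB.exists_subset_of_mem_open hne3 isOpen_compl_singleton
  have h1 : x0 ∉ N D := fun h => hx0' (mem_biUnion hDB h)
  have h2 : x ∉ N D := fun h => hxN (mem_biUnion hDB h)
  by_cases h : ν (F ∩ ψ ⁻¹' D) = 0
  · simp only [N, if_pos h] at h1
    exact h1 ⟨hx0, hD1⟩
  · simp only [N, if_neg h] at h2
    exact h2 ⟨hx, fun hD3 => hD2 hD3 rfl⟩

theorem mst {E : Set K} {φ : ℕ → K → K} (hφ : ∀ n, Measurable (φ n))
    (hn : ∀ n y, ν (E ∩ φ n ⁻¹' {y}) = 0) (F : Set K) (hFE : F ⊆ E) (hF : MeasurableSet F)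
    (hpos : 0 < ν F) (l : ℕ) : ∃ A0 A1 : Set K, A0 ⊆ F ∧ A1 ⊆ F ∧ MeasurableSet A0 ∧
      MeasurableSet A1 ∧ 0 < ν A0 ∧ 0 < ν A1 ∧ ∀ i < l, ∀ x ∈ A0, ∀ y ∈ A1, φ i x ≠ φ i y := by
  induction l with
  | zero => exact ⟨F, F, subset_rfl, subset_rfl, hF, hF, hpos, hpos, fun i hi => by omega⟩
  | succ l ih =>
    obtain ⟨A0, A1, s0, s1, m0, m1, p0, p1, hd⟩ := ih
    obtain ⟨D, hD, hD1, hD2⟩ := msp (hφ l) p0 (fun y => measure_mono_null
      (inter_subset_inter_left _ (s0.trans hFE)) (hn l y))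
    have key : 0 < ν (A1 ∩ φ l ⁻¹' D) ∨ 0 < ν (A1 \ φ l ⁻¹' D) := by
      by_contra hc
      push Not at hc
      obtain ⟨c1, c2⟩ := hc
      have : ν A1 ≤ 0 := by
        calc ν A1 = ν ((A1 ∩ φ l ⁻¹' D) ∪ (A1 \ φ l ⁻¹' D)) := by rw [inter_union_diff]
          _ ≤ ν (A1 ∩ φ l ⁻¹' D) + ν (A1 \ φ l ⁻¹' D) := measure_union_le _ _
          _ ≤ 0 + 0 := add_le_add c1 c2
          _ = 0 := add_zero 0
      exact absurd p1 (not_lt.2 this)
    rcases key with hk | hk
    · refine ⟨A0 \ φ l ⁻¹' D, A1 ∩ φ l ⁻¹' D, diff_subset.trans s0, inter_subset_left.trans s1,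
        m0.diff (hφ l hD), m1.inter (hφ l hD), hD2, hk, ?_⟩
      intro i hi x hx y hy
      rcases Nat.lt_succ_iff_lt_or_eq.1 hi with h | rfl
      · exact hd i h x hx.1 y hy.1
      · intro e
        refine hx.2 ?_
        show φ i x ∈ D
        rw [e]
        exact hy.2
    · refine ⟨A0 ∩ φ l ⁻¹' D, A1 \ φ l ⁻¹' D, inter_subset_left.trans s0, diff_subset.trans s1,
        m0.inter (hφ l hD), m1.diff (hφ l hD), hD1, hk, ?_⟩
      intro i hi x hx y hy
      rcases Nat.lt_succ_iff_lt_or_eq.1 hi with h | rfl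
      · exact hd i h x hx.1 y hy.1
      · intro e
        refine hy.2 ?_
        show φ i y ∈ D
        rw [← e]
        exact hx.2

theorem mreg {F : Set K} (hF : MeasurableSet F) (hpos : 0 < ν F) :
    ∃ C, C ⊆ F ∧ IsCompact C ∧ 0 < ν C := by
  letI : MetricSpace K := TopologicalSpace.metrizableSpaceMetric K
  obtain ⟨C, hC, hC', hC''⟩ := hF.exists_lt_isCompact_of_ne_top (measure_ne_top ν F) hpos
  exact ⟨C, hC, hC', hC''⟩

end

theorem myn : MynStmt := by
  classical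
  intro K _ _ _ _ _ ν _ E φ hE hφ hpos hn
  letI : MetricSpace K := TopologicalSpace.metrizableSpaceMetric K
  obtain ⟨C, hCE, kC, pC⟩ := mreg hE hpos
  let T := {F : Set K // F ⊆ E ∧ IsCompact F ∧ 0 < ν F}
  have hs : ∀ (F : T) (l : ℕ), ∃ G : Bool → T, (∀ b, (G b).1 ⊆ F.1) ∧
      ∀ b b' : Bool, b ≠ b' → ∀ i ≤ l, ∀ x ∈ (G b).1, ∀ y ∈ (G b').1, φ i x ≠ φ i y := by
    intro F l
    obtain ⟨A0, A1, s0, s1, m0, m1, p0, p1, hd⟩ := mst hφ hn F.1 F.2.1
      F.2.2.1.isClosed.measurableSet F.2.2.2 (l + 1)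
    obtain ⟨C0, c0, k0, q0⟩ := mreg m0 p0
    obtain ⟨C1, c1, k1, q1⟩ := mreg m1 p1
    refine ⟨fun b => if b = true then ⟨C1, (c1.trans s1).trans F.2.1, k1, q1⟩
      else ⟨C0, (c0.trans s0).trans F.2.1, k0, q0⟩, ?_, ?_⟩
    · intro b
      cases b
      · simpa using c0.trans s0
      · simpa using c1.trans s1
    · intro b b' hb i hi x hx y hy
      cases b <;> cases b'
      · exact absurd rfl hb
      · simp only [Bool.false_eq_true, if_false, if_true] at hx hy
        exact hd i (by omega) x (c0 hx) y (c1 hy)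
      · simp only [Bool.false_eq_true, if_false, if_true] at hx hy
        exact fun e => hd i (by omega) y (c0 hy) x (c1 hx) e.symm
      · exact absurd rfl hb
  choose nx nx1 nx2 using hs
  let nd : (ℕ → Bool) → ℕ → T := fun σ n => Nat.rec ⟨C, hCE, kC, pC⟩ (fun k F => nx F k (σ k)) n
  have nd0 : ∀ σ, nd σ 0 = ⟨C, hCE, kC, pC⟩ := fun σ => rfl
  have nds : ∀ σ n, nd σ (n + 1) = nx (nd σ n) n (σ n) := fun σ n => rfl
  have hP : ∀ σ : ℕ → Bool, ∃ x : K, ∀ n, x ∈ (nd σ n).1 := by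
    intro σ
    have := IsCompact.nonempty_iInter_of_sequence_nonempty_isCompact_isClosed
      (fun n => (nd σ n).1) (fun n => by
        show (nd σ (n + 1)).1 ⊆ (nd σ n).1
        rw [nds]
        exact nx1 _ _ _)
      (fun n => by
        by_contra hc
        rw [not_nonempty_iff_eq_empty] at hc
        have h4 := (nd σ n).2.2.2
        rw [hc, measure_empty] at h4
        exact lt_irrefl _ h4)
      (nd σ 0).2.2.1 (fun n => (nd σ n).2.2.1.isClosed)
    obtain ⟨x, hx⟩ := this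
    exact ⟨x, fun n => mem_iInter.1 hx n⟩
  choose P hP using hP
  have hsep : ∀ (k : ℕ) (σ τ : ℕ → Bool), σ ≠ τ → (∀ i < k, σ i = τ i) →
      φ k (P σ) ≠ φ k (P τ) := by
    intro k σ τ hst hk
    have hex : ∃ n, σ n ≠ τ n := Function.ne_iff.1 hst
    let n := Nat.find hex
    have hn : σ n ≠ τ n := Nat.find_spec hex
    have hlt : ∀ j < n, σ j = τ j := fun j hj => by
      by_contra hc
      exact Nat.find_min hex hj hc
    have hkn : k ≤ n := by
      by_contra hc
      exact hn (hk n (by omega))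
    have heq : ∀ j, j ≤ n → nd σ j = nd τ j := by
      intro j
      induction j with
      | zero => intro _; rw [nd0, nd0]
      | succ j ih =>
        intro hj
        rw [nds, nds, ih (by omega), hlt j (by omega)]
    have a := hP σ (n + 1)
    have b := hP τ (n + 1)
    rw [nds] at a b
    rw [heq n le_rfl] at a
    exact nx2 (nd τ n) n (σ n) (τ n) hn k hkn _ a _ b
  refine ⟨P, fun σ => (nd σ 0).2.1 (hP σ 0), fun n y => ?_⟩
  refine Set.Finite.of_finite_image (f := fun (σ : ℕ → Bool) (i : Fin n) => σ i)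
    (Set.toFinite _) ?_
  intro σ hσ τ hτ h
  by_contra hne
  refine hsep n σ τ hne (fun i hi => congrFun h ⟨i, hi⟩) ?_
  rw [Set.mem_ofPred_eq] at hσ hτ
  rw [hσ, hτ]

end Pool.Agent.NPX.H64
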