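import Pool.Agent.NPX.Stmts

/-!
# Squad NPX, row PWR: arithmetic of the exponents
-/

set_option autoImplicit false

open MeasureTheory Set Topology Pointwise

namespace Pool.Agent.NPX.H64

open Pool.Agent.LSG Pool.Agent.NPX

variable {K : Type} [CommGroup K]

theorem fin0 : ¬ Inf K 0 := by
  intro h
  refine h ((Set.finite_singleton (1 : K)).subset ?_)
  rintro _ ⟨x, rfl⟩
  simp

theorem inf1 [Infinite K] : Inf K 1 := by
  have : (Set.range fun x : K => x ^ (1 : ℤ)) = Set.univ := by
    ext x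
    simp
  unfold Inf
  rw [this]
  exact Set.infinite_univ

theorem finAdd (a b : ℤ) (ha : ¬ Inf K a) (hb : ¬ Inf K b) : ¬ Inf K (a + b) := by
  have ha' : (Set.range fun x : K => x ^ a).Finite := Set.not_infinite.1 ha
  have hb' : (Set.range fun x : K => x ^ b).Finite := Set.not_infinite.1 hb
  intro h
  refine h ((ha'.mul hb').subset ?_)
  rintro _ ⟨x, rfl⟩
  exact Set.mem_mul.2 ⟨x ^ a, ⟨x, rfl⟩, x ^ b, ⟨x, rfl⟩, (zpow_add x a b).symm⟩

theorem finMul (a b : ℤ) (ha : ¬ Inf K a) : ¬ Inf K (a * b) := by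
  have ha' : (Set.range fun x : K => x ^ a).Finite := Set.not_infinite.1 ha
  intro h
  refine h ((ha'.image fun y : K => y ^ b).subset ?_)
  rintro _ ⟨x, rfl⟩
  exact ⟨x ^ a, ⟨x, rfl⟩, (zpow_mul x a b).symm⟩

/-- The ideal of the exponents with finitely many powers. -/
def idl (K : Type) [CommGroup K] : Ideal ℤ where
  carrier := {k | ¬ Inf K k}
  add_mem' := fun {a b} ha hb => finAdd a b ha hb
  zero_mem' := fin0
  smul_mem' := fun c x hx => by
    show ¬ Inf K (c * x)
    rw [mul_comm]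
    exact finMul x c hx

theorem mem_idl (k : ℤ) : k ∈ idl K ↔ ¬ Inf K k := Iff.rfl

theorem pwr : PwrStmt := by
  classical
  intro K _ _
  have h1 : (1 : ℤ) ∉ idl K := fun h => h inf1
  have hUI : ∀ u, Un K u → Inf K u := by
    rintro u ⟨v, hv⟩
    by_contra hu
    refine h1 ?_
    have e : (1 : ℤ) = u * v - (u * v - 1) := by ring
    rw [e]
    exact (idl K).sub_mem ((idl K).mul_mem_right v hu) hv
  have hU0 : ¬ Un K 0 := fun h => fin0 (hUI 0 h)
  have hU1 : Un K 1 := ⟨1, by simpa using (fin0 : ¬ Inf K 0)⟩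
  have hUc : ∀ u u', Un K u → ¬ Inf K (u - u') → Un K u' := by
    rintro u u' ⟨v, hv⟩ h
    refine ⟨v, ?_⟩
    have e : u' * v - 1 = (u * v - 1) - (u - u') * v := by ring
    rw [← mem_idl, e]
    exact (idl K).sub_mem hv ((idl K).mul_mem_right v h)
  refine ⟨fin0, inf1, finAdd, finMul, hUI, hU0, hU1, ?_, ?_, hUc, ?_⟩
  · rintro u u' ⟨v, hv⟩ ⟨v', hv'⟩
    refine ⟨v * v', ?_⟩
    have e : u * u' * (v * v') - 1 = (u * v - 1) * (u' * v') + (u' * v' - 1) := by ring
    rw [← mem_idl, e]
    exact (idl K).add_mem ((idl K).mul_mem_right _ hv) hv'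
  · rintro u u' ⟨v, hv⟩
    refine ⟨u' * v, ?_⟩
    rw [← mul_assoc]
    exact hv
  · obtain ⟨m, hm⟩ := (IsPrincipalIdealRing.principal (idl K)).principal
    have hmem : ∀ k, ¬ Inf K k ↔ m ∣ k := by
      intro k
      rw [← mem_idl, hm]
      exact Ideal.mem_span_singleton
    by_cases hm0 : m = 0
    · subst hm0
      refine ⟨{1, -1}, ⟨1, by simp⟩, ?_, ?_, ?_⟩
      · intro v hv
        rw [Finset.mem_insert, Finset.mem_singleton] at hv
        rcases hv with rfl | rfl
        · exact hU1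
        · exact ⟨-1, by simpa using (fin0 : ¬ Inf K 0)⟩
      · intro v _ v' _ hne
        by_contra h
        rw [hmem, zero_dvd_iff] at h
        exact hne (by omega)
      · rintro u ⟨v, hv⟩
        rw [hmem, zero_dvd_iff] at hv
        have h2 : u * v = 1 := by omega
        rcases Int.eq_one_or_neg_one_of_mul_eq_one h2 with h | h
        · exact ⟨1, by simp, by rw [h]; simpa using (fin0 : ¬ Inf K 0)⟩
        · exact ⟨-1, by simp, by rw [h]; simpa using (fin0 : ¬ Inf K 0)⟩
    · have hrep : ∀ u, Un K u → ∃ v ∈ (Finset.Ico (0 : ℤ) |m|).filter (fun v => Un K v),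
          ¬ Inf K (u - v) := by
        intro u hu
        have h2 : ¬ Inf K (u - u % m) := by
          rw [hmem]
          exact ⟨u / m, by have := Int.emod_add_mul_ediv u m; linarith⟩
        exact ⟨u % m, Finset.mem_filter.2 ⟨Finset.mem_Ico.2 ⟨Int.emod_nonneg u hm0,
          Int.emod_lt_abs u hm0⟩, hUc _ _ hu h2⟩, h2⟩
      refine ⟨(Finset.Ico (0 : ℤ) |m|).filter (fun v => Un K v), ?_, ?_, ?_, hrep⟩
      · obtain ⟨v, hv, -⟩ := hrep 1 hU1
        exact ⟨v, hv⟩
      · intro v hv
        exact (Finset.mem_filter.1 hv).2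
      · intro v hv v' hv' hne
        by_contra h
        rw [hmem] at h
        have h3 := Finset.mem_Ico.1 (Finset.mem_filter.1 hv).1
        have h4 := Finset.mem_Ico.1 (Finset.mem_filter.1 hv').1
        have h5 : |v - v'| < |m| := by
          rw [abs_lt]
          constructor <;> linarith [h3.1, h3.2, h4.1, h4.2]
        have h6 := Int.eq_zero_of_abs_lt_dvd ((abs_dvd _ _).2 h) h5
        exact hne (by omega)

end Pool.Agent.NPX.H64
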